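import Pool.Agent.W170.Z3.Stm
import Pool.Agent.H336R2.HD.A5

/-!
# Irrationality exponent of `ζ(3)`: the conclusion (`StZ`)
-/

open Polynomial Pool.Agent.H337R2 Pool.Agent.W170.Z3 Filter Topology

namespace Pool.Agent.W878.Z3

noncomputable section

/-- no good approximation with a large denominator -/
theorem large_den (hA : StAM) (hP : StP) (hPl : StPl) (hH : StH6) (hZ : StZ1) :
    ∃ b0 : ℕ, 1 ≤ b0 ∧ ∀ (a : ℤ) (b : ℕ), b0 ≤ b →
      ((b : ℝ) ^ ((542 : ℝ) / 100))⁻¹ < |zr 3 - (a : ℝ) / b| := by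
  obtain ⟨p0, hp0⟩ := hH
  obtain ⟨L0, hL0⟩ := hZ (1 / 5000) (by norm_num)
  have hev := hA.and (hP (1 / 1000) (by norm_num))
  rw [eventually_atTop] at hev
  obtain ⟨n0, hn0⟩ := hev
  obtain ⟨b0, hb0⟩ := exists_nat_gt (Real.exp (10 * (|L0| + n0 + p0 + 1)))
  refine ⟨b0, ?_, fun a b hb => ?_⟩
  · have : (0 : ℝ) < b0 := (Real.exp_pos _).trans hb0
    have : 0 < b0 := by exact_mod_cast this
    omega
  by_contra hcon
  push Not at hcon
  have hbR : Real.exp (10 * (|L0| + n0 + p0 + 1)) < b := hb0.trans_le (by exact_mod_cast hb)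
  have hbpos : (0 : ℝ) < b := (Real.exp_pos _).trans hbR
  have hb1 : 0 < b := by exact_mod_cast hbpos
  set L : ℝ := Real.log b with hL
  have hLbig : 10 * (|L0| + n0 + p0 + 1) < L := by
    rw [hL]
    exact (Real.lt_log_iff_exp_lt hbpos).2 hbR
  have hn0c : (0 : ℝ) ≤ n0 := Nat.cast_nonneg _
  have hp0c : (0 : ℝ) ≤ p0 := Nat.cast_nonneg _
  have hL0c : (0 : ℝ) ≤ |L0| := abs_nonneg _
  have hL0d : L0 ≤ |L0| := le_abs_self _
  have hLpos : 0 < L := by linarith
  have hLL : |L0| + n0 + p0 + 1 < L / (9634 / 1000) := by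
    rw [lt_div_iff₀ (by norm_num)]
    linarith
  obtain ⟨n, hnp, hmod, hnL, hnU⟩ := hL0 (L / (9634 / 1000)) (by linarith)
  have : Fact n.Prime := ⟨hnp⟩
  have hnR : |L0| + n0 + p0 + 1 < n := by linarith
  have hnn0 : n0 ≤ n := by
    have : (n0 : ℝ) ≤ n := by linarith
    exact_mod_cast this
  have hnp0 : p0 ≤ n := by
    have : (p0 : ℝ) ≤ n := by linarith
    exact_mod_cast this
  have hn1 : 1 ≤ n := hnp.one_lt.le
  have hnpos : (0 : ℝ) < n := by linarith
  -- the rational number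
  set x : ℚ := (a : ℚ) / b with hx
  have hbq : (b : ℚ) ≠ 0 := by exact_mod_cast hb1.ne'
  have hxR : (x : ℝ) = (a : ℝ) / b := by rw [hx]; push_cast; rfl
  have hu : QI b x := ⟨hb1, a, by rw [hx]; field_simp⟩
  have hDne : DET n x (2 * n) ≠ 0 := hp0 n hnp0 hnp hmod x
  obtain ⟨hAn, hPn⟩ := hn0 n hnn0
  -- the distance
  have hdist : |(x : ℝ) - zr 3| ≤ Real.exp (-(522 / 10 * n)) := by
    rw [abs_sub_comm, hxR]
    refine hcon.trans ?_
    have h1 : ((b : ℝ) ^ ((542 : ℝ) / 100))⁻¹ = Real.exp (-(542 / 100 * L)) := by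
      rw [Real.exp_neg, Real.rpow_def_of_pos hbpos, mul_comm]
    rw [h1]
    apply Real.exp_le_exp.2
    have h3 : (n : ℝ) ≤ (1 + 1 / 5000) * (L / (9634 / 1000)) := hnU
    have h4 : (522 / 10 : ℝ) * n ≤ 522 / 10 * ((1 + 1 / 5000) * (L / (9634 / 1000))) :=
      mul_le_mul_of_nonneg_left h3 (by norm_num)
    have h5 : (522 / 10 : ℝ) * ((1 + 1 / 5000) * (L / (9634 / 1000))) ≤ 542 / 100 * L := by
      have : (522 / 10 : ℝ) * ((1 + 1 / 5000) * (L / (9634 / 1000))) =
          (522 / 10 * (1 + 1 / 5000) / (9634 / 1000)) * L := by ring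
      rw [this]
      apply mul_le_mul_of_nonneg_right _ hLpos.le
      norm_num
    linarith
  -- archimedean bound
  have hArch := hAn x hdist hDne
  have hP1 := hPn b x hu hDne
  -- product formula
  set z : ℚ := (b : ℚ) ^ (2 * n) * DET n x (2 * n) with hz
  have hz0 : z ≠ 0 := mul_ne_zero (pow_ne_zero _ hbq) hDne
  set S : Finset ℕ := (Finset.range (12 * n + 1)).filter Nat.Prime with hS
  have hpf := Pool.Agent.H336R2.HD.A5_prod_formula z hz0 S (fun p hp => (Finset.mem_filter.1 hp).2)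
    (fun p => ((padicNorm p z : ℚ) : ℝ)) (fun p _ => le_rfl) (fun p hp hpS => by
      rw [hS, Finset.mem_filter, Finset.mem_range] at hpS
      have h1 : 12 * n < p := by
        by_contra h; exact hpS ⟨by omega, hp⟩
      exact hPl b x hu n hn1 p hp h1)
  have hpos : ∀ p ∈ S, 0 < ((padicNorm p z : ℚ) : ℝ) := by
    intro p hp
    have : Fact p.Prime := ⟨(Finset.mem_filter.1 hp).2⟩
    have h1 : 0 < padicNorm p z := lt_of_le_of_ne (padicNorm.nonneg _) (Ne.symm (padicNorm.nonzero hz0))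
    exact_mod_cast h1
  have hprodpos : 0 < ∏ p ∈ S, ((padicNorm p z : ℚ) : ℝ) := Finset.prod_pos hpos
  have hzabs : 0 < |(z : ℝ)| := abs_pos.2 (by exact_mod_cast hz0)
  have hlog := Real.log_nonneg hpf
  rw [Real.log_mul hzabs.ne' hprodpos.ne', Real.log_prod (fun p hp => (hpos p hp).ne')] at hlog
  have hzlog : Real.log |(z : ℝ)| = 2 * n * L + Real.log |((DET n x (2 * n) : ℚ) : ℝ)| := by
    rw [hz]
    push_cast
    rw [abs_mul, Real.log_mul (abs_pos.2 (by positivity)).ne' (abs_pos.2 (by exact_mod_cast hDne)).ne',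
      abs_of_pos (by positivity), Real.log_pow]
    push_cast
    ring
  have h1 : 2 * n * L ≤ 2 * 9634 / 1000 * (n : ℝ) ^ 2 := by
    have : L ≤ 9634 / 1000 * n := by
      have h6 : L / (9634 / 1000) < n := hnL
      rw [div_lt_iff₀ (by norm_num)] at h6
      linarith
    calc 2 * n * L ≤ 2 * n * (9634 / 1000 * n) := by gcongr
      _ = _ := by ring
  have h2 : (0 : ℝ) < (n : ℝ) ^ 2 := by positivity
  nlinarith

/-- the conclusion: the irrationality exponent of `ζ(3)` is at most `5.42` -/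
theorem Z_of (hA : StAM) (hP : StP) (hPl : StPl) (hH : StH6) (hZ : StZ1) : StZ := by
  obtain ⟨b0, hb0, h⟩ := large_den hA hP hPl hH hZ
  have hb0R : (0 : ℝ) < b0 := by exact_mod_cast hb0
  refine ⟨((b0 : ℝ) ^ ((542 : ℝ) / 100))⁻¹, by positivity, fun a b hb => ?_⟩
  have hbR : (0 : ℝ) < b := by exact_mod_cast hb
  have h1 := h (a * b0) (b * b0) (Nat.le_mul_of_pos_left b0 hb)
  push_cast at h1
  rw [mul_div_mul_right _ _ hb0R.ne'] at h1
  refine le_trans (le_of_eq ?_) h1.le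
  rw [Real.mul_rpow hbR.le hb0R.le, mul_inv, div_eq_mul_inv]
  ring

end

end Pool.Agent.W878.Z3
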